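import Pool.Agent.helper55.FLD.Spec

set_option autoImplicit false

namespace Pool.Agent.FLD

open Matrix Topology Filter Pool.Agent.GO Pool.Agent.AR

theorem LG (h1 : TA_stmt) : LG_stmt := by
  intro p _ B _ _ _ _ _ _ R hL
  obtain ⟨-, T2, T3⟩ := h1 p B R
  have A1 : ∀ (i : ℕ) (x Z : B), Dv p R 2 (x - 1) →
      Dv p R (2 * (i + 1) + 3) (x ^ p ^ (i + 1) - 1 - ((p : ℚ_[p]) ^ (i + 1)) • Z) →
      Dv p R (2 * i + 3) (x ^ p ^ i - 1 - ((p : ℚ_[p]) ^ i) • Z) := by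
    intro i x Z hx hZ
    have t3 := T3 i x hx
    have hZ' : Dv p R (2 * i + 4) (x ^ p ^ (i + 1) - 1 - ((p : ℚ_[p]) ^ (i + 1)) • Z) :=
      hZ.mono (by omega)
    have h := hZ'.sub t3
    refine Dv.of_smul 1 ?_
    have e : ((p : ℚ_[p]) ^ 1) • (x ^ p ^ i - 1 - ((p : ℚ_[p]) ^ i) • Z) =
        x ^ p ^ (i + 1) - 1 - ((p : ℚ_[p]) ^ (i + 1)) • Z -
          (x ^ p ^ (i + 1) - 1 - (p : ℚ_[p]) • (x ^ p ^ i - 1)) := by
      rw [pow_one, smul_sub, smul_smul, ← pow_succ']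
      abel
    rw [e]
    exact h
  refine ⟨A1, ?_, ?_, ?_, ?_⟩
  · intro x hx
    let C : ℕ → Set B := fun i =>
      (R : Set B) ∩ {Z | Dv p R (2 * i + 3) (x ^ p ^ i - 1 - ((p : ℚ_[p]) ^ i) • Z)}
    have hc : ∀ i, IsClosed {Z : B | Dv p R (2 * i + 3) (x ^ p ^ i - 1 - ((p : ℚ_[p]) ^ i) • Z)} :=
      fun i => (hL.isClosed_dv (2 * i + 3)).preimage
        (continuous_const.sub (continuous_const_smul ((p : ℚ_[p]) ^ i)))
    have hC : ∀ i, IsClosed (C i) := fun i => hL.compact.isClosed.inter (hc i)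
    have h0 : IsCompact (C 0) := hL.compact.inter_right (hc 0)
    obtain ⟨Z, hZ⟩ := IsCompact.nonempty_iInter_of_sequence_nonempty_isCompact_isClosed C
      (fun i Z hZ => ⟨hZ.1, A1 i x Z hx hZ.2⟩)
      (fun i => by
        have h2 := (T2 i 2 x 1 hx (by rw [sub_self]; exact Dv.zero 2)).1 hx
        rw [one_pow] at h2
        obtain ⟨r, hr, h3⟩ := h2
        refine ⟨((p : ℚ_[p]) ^ 2) • r, ppow_smul_mem hr 2, ?_⟩
        have e : x ^ p ^ i - 1 - ((p : ℚ_[p]) ^ i) • ((p : ℚ_[p]) ^ 2) • r = 0 := by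
          rw [h3, smul_smul, ← pow_add, add_comm i 2, sub_self]
        show Dv p R (2 * i + 3) (x ^ p ^ i - 1 - ((p : ℚ_[p]) ^ i) • ((p : ℚ_[p]) ^ 2) • r)
        rw [e]
        exact Dv.zero _) h0 hC
    rw [Set.mem_iInter] at hZ
    exact ⟨Z, (hZ 0).1, fun i => (hZ i).2⟩
  · intro x y Z hx hy hxZ hyZ
    rw [← sub_eq_zero]
    refine hL.sep _ fun i => ?_
    have h := (hxZ i).sub (hyZ i)
    have e : x ^ p ^ i - 1 - ((p : ℚ_[p]) ^ i) • Z - (y ^ p ^ i - 1 - ((p : ℚ_[p]) ^ i) • Z) =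
        x ^ p ^ i - y ^ p ^ i := by abel
    rw [e] at h
    have h' : Dv p R (i + 3 + i) (x ^ p ^ i - y ^ p ^ i) := h.mono (by omega)
    exact ((T2 i (i + 3) x y hx hy).2 h').mono (by omega)
  · intro k x Z hxZ i
    have h := hxZ (k + i)
    have e : (x ^ p ^ k) ^ p ^ i - 1 - ((p : ℚ_[p]) ^ i) • ((p : ℚ_[p]) ^ k) • Z =
        x ^ p ^ (k + i) - 1 - ((p : ℚ_[p]) ^ (k + i)) • Z := by
      rw [← pow_mul, ← pow_add, smul_smul, ← pow_add, add_comm i k]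
    rw [e]
    exact h.mono (by omega)
  · intro x Z hx hxZ
    have h := hxZ 0
    rw [pow_zero, pow_one, pow_zero, one_smul] at h
    have h' : Dv p R 2 (x - 1 - Z) := h.mono (by norm_num)
    have e : Z = x - 1 - (x - 1 - Z) := by abel
    rw [e]
    exact hx.sub h'

end Pool.Agent.FLD
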